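import Pool.Agent.H3RD.W830.RD.Stm

set_option autoImplicit false

/-! Project RD, part SLOTS: a scheme with `N` slots gives a realiser with `N + 2` linear extensions. -/

namespace Pool.Agent.W880.RD.Slots

open Finset Filter Topology
open Pool.Agent.W830.RD
open scoped Classical

theorem rlz_of {α ι : Type} [Fintype ι] [Nonempty ι] {le : α → α → Prop} {k : ℕ}
    (hk : Fintype.card ι ≤ k) (F : ι → α → ℕ) (hF : ∀ i, Function.Injective (F i))
    (h : ∀ x y, (le x y ↔ ∀ i, F i x ≤ F i y)) : Rlz le k := by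
  obtain ⟨g⟩ : Nonempty (ι ↪ Fin k) :=
    Function.Embedding.nonempty_of_card_le (by rw [Fintype.card_fin]; exact hk)
  have hs : Function.Surjective (Function.invFun g) := Function.invFun_surjective g.injective
  refine ⟨fun i => F (Function.invFun g i), fun i => hF _, fun x y => ?_⟩
  rw [h]
  constructor
  · intro h1 i
    exact h1 _
  · intro h1 i
    obtain ⟨j, rfl⟩ := hs i
    exact h1 j

theorem inc_symm {α : Type} [PartialOrder α] {x y : α} (h : Inc x y) : Inc y x := ⟨h.2, h.1⟩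

/-- the up-set attached to a small entry -/
def Hof {α : Type} [PartialOrder α] (p : Finset α × Finset α) (y : α) : Prop :=
  (∃ v ∈ p.1, v ≤ y) ∨ (∃ v ∈ p.2, ¬ y ≤ v)

theorem Hof_up {α : Type} [PartialOrder α] (p : Finset α × Finset α) :
    ∀ x y : α, x ≤ y → Hof p x → Hof p y := by
  rintro x y hxy (⟨v, hv, h⟩ | ⟨v, hv, h⟩)
  · exact Or.inl ⟨v, hv, h.trans hxy⟩
  · exact Or.inr ⟨v, hv, fun h' => h (hxy.trans h')⟩

theorem small_fst {α : Type} {p : Finset α × Finset α} (h : Small p) {t : α} (ht : t ∈ p.1) :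
    (∀ v ∈ p.1, v = t) ∧ p.2 = ∅ := by
  unfold Pool.Agent.W830.RD.Small at h
  have h1 : 1 ≤ p.1.card := card_pos.2 ⟨t, ht⟩
  have h2 : p.2.card = 0 := by omega
  have h3 : p.1.card ≤ 1 := by omega
  exact ⟨fun v hv => card_le_one.1 h3 v hv t ht, card_eq_zero.1 h2⟩

theorem small_snd {α : Type} {p : Finset α × Finset α} (h : Small p) {t : α} (ht : t ∈ p.2) :
    (∀ v ∈ p.2, v = t) ∧ p.1 = ∅ := by
  unfold Pool.Agent.W830.RD.Small at h
  have h1 : 1 ≤ p.2.card := card_pos.2 ⟨t, ht⟩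
  have h2 : p.1.card = 0 := by omega
  have h3 : p.2.card ≤ 1 := by omega
  exact ⟨fun v hv => card_le_one.1 h3 v hv t ht, card_eq_zero.1 h2⟩

theorem not_mixed_of_small {α : Type} [PartialOrder α] {p : Finset α × Finset α} (h : Small p) :
    ¬ Mixed p := by
  rintro ⟨d, hd, u, hu, _⟩
  have := (small_fst h hd).2
  rw [this] at hu
  exact notMem_empty _ hu

theorem main (h : S_PAIR) : S_SLOTS := by
  intro α _ _ N D U hS hSch
  obtain ⟨L, X, Y, hLN, hL, hLD, hLU, hXY, hmix, hcount⟩ := hSch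
  -- indexing
  obtain ⟨n, e, hn, hLe⟩ : ∃ (n : ℕ) (e : Fin n → Finset α × Finset α), n ≤ N ∧
      L = (univ : Finset (Fin n)).val.map e := by
    refine ⟨L.toList.length, fun i => L.toList.get i, ?_, ?_⟩
    · rw [Multiset.length_toList]
      exact hLN
    · rw [Fin.univ_val_map, List.ofFn_get, Multiset.coe_toList]
  have hmem : ∀ p, p ∈ L ↔ ∃ i, e i = p := by
    intro p
    rw [hLe, Multiset.mem_map]
    simp
  have hmemi : ∀ i, e i ∈ L := fun i => (hmem _).2 ⟨i, rfl⟩
  have hcnt : ∀ P : Finset α × Finset α → Prop, L.countP P = Fintype.card {i : Fin n // P (e i)} := by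
    intro P
    rw [hLe, Multiset.countP_map, Fintype.card_subtype]
    rfl
  rw [hcnt, hcnt] at hcount
  obtain ⟨hlp⟩ := Function.Embedding.nonempty_of_card_le hcount
  -- the pairs of functions
  obtain ⟨Hf, hHf⟩ : ∃ Hf : Fin n → α → Prop, Hf = fun i y =>
    ∃ hm : Mixed (e i), Hof (e (hlp ⟨i, hm⟩).1) y := ⟨_, rfl⟩
  have hHup : ∀ i, ∀ x y, x ≤ y → Hf i x → Hf i y := by
    intro i x y hxy hx
    rw [hHf] at hx ⊢
    obtain ⟨hm, hx⟩ := hx
    exact ⟨hm, Hof_up _ x y hxy hx⟩
  have hpair := fun i => h α D U (e i).1 (e i).2 (Hf i) hS (hL _ (hmemi i)).1 (hL _ (hmemi i)).2.1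
    (hL _ (hmemi i)).2.2.1 (hL _ (hmemi i)).2.2.2 (hHup i)
  choose f g c1 c2 c3 c4 c5 c6 c7 c8 c9 using hpair
  -- the functions of the slots
  obtain ⟨F, hF⟩ : ∃ F : Fin n → α → ℕ, F = fun p =>
    if hm : ∃ i : {i : Fin n // Mixed (e i)}, (hlp i).1 = p then f hm.choose.1 else g p := ⟨_, rfl⟩
  have hFh : ∀ i : {i : Fin n // Mixed (e i)}, F (hlp i).1 = f i.1 := by
    intro i
    have hex : ∃ j : {i : Fin n // Mixed (e i)}, (hlp j).1 = (hlp i).1 := ⟨i, rfl⟩
    rw [hF]
    simp only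
    rw [dif_pos hex]
    have h1 := hex.choose_spec
    have h2 : hex.choose = i := hlp.injective (Subtype.ext h1)
    rw [h2]
  have hFm : ∀ p, ¬ (∃ i : {i : Fin n // Mixed (e i)}, (hlp i).1 = p) → F p = g p := by
    intro p hp
    rw [hF]
    simp only
    rw [dif_neg hp]
  have hnoth : ∀ i, Mixed (e i) → ¬ (∃ j : {i : Fin n // Mixed (e i)}, (hlp j).1 = i) := by
    rintro i hi ⟨j, rfl⟩
    exact not_mixed_of_small (hlp j).2 hi
  have hFinj : ∀ p, Function.Injective (F p) := by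
    intro p
    by_cases hp : ∃ i : {i : Fin n // Mixed (e i)}, (hlp i).1 = p
    · obtain ⟨i, rfl⟩ := hp
      rw [hFh]
      exact c1 _
    · rw [hFm p hp]
      exact c2 _
  have hFmon : ∀ p, ∀ x y, x ≤ y → F p x ≤ F p y := by
    intro p
    by_cases hp : ∃ i : {i : Fin n // Mixed (e i)}, (hlp i).1 = p
    · obtain ⟨i, rfl⟩ := hp
      rw [hFh]
      exact c3 _
    · rw [hFm p hp]
      exact c4 _
  -- complete service
  have hfull1 : ∀ p, ¬ Mixed (e p) → ∀ t ∈ (e p).1, ∀ y, Inc t y → F p y < F p t := by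
    intro p hp t ht y hty
    by_cases hh : ∃ i : {i : Fin n // Mixed (e i)}, (hlp i).1 = p
    · obtain ⟨i, rfl⟩ := hh
      rw [hFh]
      obtain ⟨s1, s2⟩ := small_fst (hlp i).2 ht
      apply c5
      · rw [hHf]
        exact ⟨i.2, Or.inl ⟨t, ht, le_refl t⟩⟩
      · rw [hHf]
        rintro ⟨_, ⟨v, hv, h1⟩ | ⟨v, hv, h1⟩⟩
        · rw [s1 v hv] at h1
          exact hty.1 h1
        · change v ∈ (e (hlp i).1).2 at hv
          rw [s2] at hv
          exact notMem_empty _ hv
    · rw [hFm p hh]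
      exact c7 p t ht (fun u hu htu => hp ⟨t, ht, u, hu, htu⟩) y hty
  have hfull2 : ∀ p, ¬ Mixed (e p) → ∀ s ∈ (e p).2, ∀ y, Inc s y → F p s < F p y := by
    intro p hp s hs y hsy
    by_cases hh : ∃ i : {i : Fin n // Mixed (e i)}, (hlp i).1 = p
    · obtain ⟨i, rfl⟩ := hh
      rw [hFh]
      obtain ⟨s1, s2⟩ := small_snd (hlp i).2 hs
      apply c5
      · rw [hHf]
        exact ⟨i.2, Or.inr ⟨s, hs, hsy.2⟩⟩
      · rw [hHf]
        rintro ⟨_, ⟨v, hv, h1⟩ | ⟨v, hv, h1⟩⟩
        · change v ∈ (e (hlp i).1).1 at hv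
          rw [s2] at hv
          exact notMem_empty _ hv
        · rw [s1 v hv] at h1
          exact h1 (le_refl s)
    · rw [hFm p hh]
      exact c9 p s hs (fun d hd hds => hp ⟨d, hd, s, hs, hds⟩) y hsy
  -- mixed entries
  have hFg : ∀ i, Mixed (e i) → F i = g i := fun i hi => hFm i (hnoth i hi)
  -- the two extra functions
  obtain ⟨e0, _, i1, _, i3, _⟩ := h α D U ∅ ∅ (fun _ => False) hS (empty_subset _) (empty_subset _)
    (fun x hx => absurd hx (notMem_empty x)) (fun x hx => absurd hx (notMem_empty x))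
    (fun _ _ _ h => h)
  obtain ⟨M, hM⟩ : ∃ M : ℕ, ∀ x, e0 x < M := ⟨univ.sup e0 + 1, fun x =>
    Nat.lt_succ_of_le (le_sup (f := e0) (mem_univ x))⟩
  obtain ⟨l0, hl0⟩ : ∃ l0 : α → ℕ, l0 = fun x =>
    if x ∈ D then e0 x else if x ∈ U then 2 * M + e0 x else M + e0 x := ⟨_, rfl⟩
  obtain ⟨l1, hl1⟩ : ∃ l1 : α → ℕ, l1 = fun x =>
    if x ∈ D then e0 x else if x ∈ U then 2 * M + e0 x else M + (M - 1 - e0 x) := ⟨_, rfl⟩
  have lev : ∀ x, (x ∈ D ∧ l0 x = e0 x ∧ l1 x = e0 x) ∨
      (x ∉ D ∧ x ∈ U ∧ l0 x = 2 * M + e0 x ∧ l1 x = 2 * M + e0 x) ∨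
      (x ∉ D ∧ x ∉ U ∧ l0 x = M + e0 x ∧ l1 x = M + (M - 1 - e0 x)) := by
    intro x
    rw [hl0, hl1]
    by_cases h1 : x ∈ D
    · left
      simp [h1]
    · right
      by_cases h2 : x ∈ U
      · left
        simp [h1, h2]
      · right
        simp [h1, h2]
  have hinj : ∀ x y : α, (l0 x = l0 y ∨ l1 x = l1 y) → x = y := by
    intro x y hxy
    apply i1
    have h1 := hM x
    have h2 := hM y
    rcases lev x with ⟨_, a1, a2⟩ | ⟨_, _, a1, a2⟩ | ⟨_, _, a1, a2⟩ <;>
    rcases lev y with ⟨_, b1, b2⟩ | ⟨_, _, b1, b2⟩ | ⟨_, _, b1, b2⟩ <;> omega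
  have hmon : ∀ x y : α, x ≤ y → l0 x ≤ l0 y ∧ l1 x ≤ l1 y := by
    intro x y hxy
    by_cases hxy' : x = y
    · rw [hxy']
      exact ⟨le_refl _, le_refl _⟩
    have h1 := hM x
    have h2 := hM y
    have h3 := i3 x y hxy
    rcases lev y with ⟨yD, b1, b2⟩ | ⟨yD, yU, b1, b2⟩ | ⟨yD, yU, b1, b2⟩
    · have xD := hS.lo x y hxy yD
      rcases lev x with ⟨_, a1, a2⟩ | ⟨xD', _, a1, a2⟩ | ⟨xD', _, a1, a2⟩
      · omega
      · exact absurd xD xD'
      · exact absurd xD xD'
    · rcases lev x with ⟨_, a1, a2⟩ | ⟨_, _, a1, a2⟩ | ⟨_, _, a1, a2⟩ <;> omega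
    · rcases lev x with ⟨_, a1, a2⟩ | ⟨_, xU, a1, a2⟩ | ⟨xD, xU, a1, a2⟩
      · omega
      · exact absurd (hS.up x y hxy xU) yU
      · exact absurd (hS.mid x y xD xU yD yU hxy) hxy'
  -- the realiser
  refine rlz_of (ι := Fin n ⊕ Bool) (k := N + 2) (by
    rw [Fintype.card_sum, Fintype.card_fin, Fintype.card_bool]
    omega) (fun i => match i with
      | Sum.inl p => F p
      | Sum.inr true => l0
      | Sum.inr false => l1) ?_ ?_
  · rintro (p | b)
    · exact hFinj p
    · cases b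
      · exact fun x y hxy => hinj x y (Or.inr hxy)
      · exact fun x y hxy => hinj x y (Or.inl hxy)
  · intro x y
    constructor
    · rintro hxy (p | b)
      · exact hFmon p x y hxy
      · cases b
        · exact (hmon x y hxy).2
        · exact (hmon x y hxy).1
    · intro hall
      have a0 : ∀ p, F p x ≤ F p y := fun p => hall (Sum.inl p)
      have a1 : l0 x ≤ l0 y := hall (Sum.inr true)
      have a2 : l1 x ≤ l1 y := hall (Sum.inr false)
      by_contra hxy
      by_cases hyx : y ≤ x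
      · have h1 := (hmon y x hyx).1
        have h2 := hinj x y (Or.inl (le_antisymm a1 h1))
        exact hxy (le_of_eq h2)
      have hinc : Inc x y := ⟨hxy, hyx⟩
      have hinc' := inc_symm hinc
      -- service of `y` in the upper part
      have hup : ∀ q, y ∈ (e q).2 → (¬ Mixed (e q) ∨ (∀ d ∈ (e q).1, ¬ d ≤ y)) → False := by
        intro q hq hc
        rcases hc with hc | hc
        · exact absurd (hfull2 q hc y hq x hinc') (not_lt.2 (a0 q))
        · by_cases hm : Mixed (e q)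
          · have h1 := c9 q y hq hc x hinc'
            rw [← hFg q hm] at h1
            exact absurd h1 (not_lt.2 (a0 q))
          · exact absurd (hfull2 q hm y hq x hinc') (not_lt.2 (a0 q))
      by_cases hxD : x ∈ D
      · obtain ⟨p', hp', hxp⟩ := hLD x hxD
        obtain ⟨p, rfl⟩ := (hmem p').1 hp'
        by_cases hm : Mixed (e p)
        · by_cases hno : ∀ u ∈ (e p).2, ¬ x ≤ u
          · have h1 := c7 p x hxp hno y hinc
            rw [← hFg p hm] at h1
            exact absurd h1 (not_lt.2 (a0 p))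
          · push Not at hno
            obtain ⟨u, hu, hxu⟩ := hno
            have hxX := (hmix _ hp' x hxp u hu hxu).1
            by_cases hyU : y ∈ U
            · have hyY : y ∉ Y := fun hyY => hxy (hXY x hxX y hyY)
              obtain ⟨q', hq', hyq⟩ := hLU y hyU
              obtain ⟨q, rfl⟩ := (hmem q').1 hq'
              exact hup q hyq (Or.inr fun d hd hdy => hyY (hmix _ hq' d hd y hyq hdy).2)
            · rcases c6 p x hxp y hinc hyU with h1 | h1
              · rw [← hFh ⟨p, hm⟩] at h1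
                exact absurd h1 (not_lt.2 (a0 _))
              · rw [← hFg p hm] at h1
                exact absurd h1 (not_lt.2 (a0 p))
        · exact absurd (hfull1 p hm x hxp y hinc) (not_lt.2 (a0 p))
      · by_cases hyU : y ∈ U
        · obtain ⟨q', hq', hyq⟩ := hLU y hyU
          obtain ⟨q, rfl⟩ := (hmem q').1 hq'
          by_cases hm : Mixed (e q)
          · rcases c8 q y hyq x hinc' hxD with h1 | h1
            · rw [← hFh ⟨q, hm⟩] at h1
              exact absurd h1 (not_lt.2 (a0 _))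
            · rw [← hFg q hm] at h1
              exact absurd h1 (not_lt.2 (a0 q))
          · exact hup q hyq (Or.inl hm)
        · have h1 := hM x
          have h2 := hM y
          have h3 : e0 x ≠ e0 y := fun h3 => hxy (le_of_eq (i1 h3))
          rcases lev x with ⟨xD, b1, b2⟩ | ⟨_, xU, b1, b2⟩ | ⟨_, xU, b1, b2⟩
          · exact absurd xD hxD
          · rcases lev y with ⟨_, d1, d2⟩ | ⟨_, yU, d1, d2⟩ | ⟨_, _, d1, d2⟩
            · omega
            · exact absurd yU hyU
            · omega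
          · rcases lev y with ⟨_, d1, d2⟩ | ⟨_, yU, d1, d2⟩ | ⟨_, _, d1, d2⟩
            · omega
            · exact absurd yU hyU
            · omega

end Pool.Agent.W880.RD.Slots
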